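import Mathlib
import Pool.Agent.H98.CohenGraph2

/-!
# Cohen forcings of strong Fraisse classes need not be forcing equivalent

For every set `X` of size at least `aleph 2` there are two non-trivial strong Fraisse classes `K₀`,
`K₁` in the language of graphs (one binary relation symbol), each with countably many isomorphism
types, such that the Boolean completions of `Cohen_X(K₀)` and `Cohen_X(K₁)` are not isomorphic.
(The classes are: all finite triangle-free graphs, and all finite graphs.)
-/

namespace Pool.Agent.Results.MP_01c350_lc.NotForcingEquivalent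

open FirstOrder FirstOrder.Language CategoryTheory

universe u

/-- A strong Fraisse class: a class of finite `L`-structures closed under isomorphism and
substructures, with joint embedding and strong (disjoint) amalgamation. -/
structure IsStrongFraisseClass {L : FirstOrder.Language.{0, 0}} (K : Set (Bundled.{u} L.Structure)) :
    Prop where
  finite : ∀ A ∈ K, Finite A
  iso : ∀ A ∈ K, ∀ B : Bundled.{u} L.Structure, Nonempty (A ≃[L] B) → B ∈ K
  substructure : ∀ A ∈ K, ∀ S : L.Substructure A, (⟨S, inferInstance⟩ : Bundled.{u} L.Structure) ∈ K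
  jointEmbedding : ∀ A ∈ K, ∀ B ∈ K, ∃ C ∈ K, Nonempty (A ↪[L] C) ∧ Nonempty (B ↪[L] C)
  strongAmalgamation : ∀ A ∈ K, ∀ B ∈ K, ∀ C ∈ K, ∀ (f : A ↪[L] B) (g : A ↪[L] C),
    ∃ D ∈ K, ∃ (f' : B ↪[L] D) (g' : C ↪[L] D), f'.comp f = g'.comp g ∧
      Set.range f' ∩ Set.range g' = Set.range (f'.comp f)

/-- An `L`-literal in the variables `x_0, ..., x_{n-1}`: an atomic formula or its negation. -/
def IsLiteral {L : FirstOrder.Language.{0, 0}} {n : ℕ} (ψ : L.Formula (Fin n)) : Prop :=
  BoundedFormula.IsAtomic ψ ∨ ∃ φ : L.Formula (Fin n), BoundedFormula.IsAtomic φ ∧ ψ = φ.not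

/-- `K` is trivial if for every literal `ψ(x_0, ..., x_{n-1})`, either every structure in `K`
satisfies `ψ` on all non-redundant `n`-tuples, or every structure in `K` satisfies the negation
of `ψ` on all non-redundant `n`-tuples. -/
def IsTrivialClass {L : FirstOrder.Language.{0, 0}} (K : Set (Bundled.{u} L.Structure)) : Prop :=
  ∀ (n : ℕ) (ψ : L.Formula (Fin n)), IsLiteral ψ →
    (∀ A ∈ K, ∀ v : Fin n → A, Function.Injective v → ψ.Realize v) ∨
    (∀ A ∈ K, ∀ v : Fin n → A, Function.Injective v → ¬ ψ.Realize v)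

/-- `K` has at most countably many isomorphism types. -/
def HasCountablyManyTypes {L : FirstOrder.Language.{0, 0}} (K : Set (Bundled.{u} L.Structure)) : Prop :=
  ∃ t : ℕ → Bundled.{u} L.Structure, ∀ A ∈ K, ∃ n, Nonempty (A ≃[L] t n)

/-- Conditions of the Cohen forcing `Cohen_X(K)`: structures in `K` whose underlying set is a
finite subset of `X`. -/
structure Cohen (X : Type u) {L : FirstOrder.Language.{0, 0}} (K : Set (Bundled.{u} L.Structure)) :
    Type u where
  dom : Finset X
  str : L.Structure dom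
  mem : (⟨dom, str⟩ : Bundled.{u} L.Structure) ∈ K

/-- `p` is stronger than `q` (`p ≤ q`) when `q` is a substructure of `p`, i.e. the inclusion map
is an embedding of `L`-structures. -/
instance (X : Type u) {L : FirstOrder.Language.{0, 0}} (K : Set (Bundled.{u} L.Structure)) :
    Preorder (Cohen X K) where
  le p q := ∃ e : @FirstOrder.Language.Embedding L q.dom p.dom q.str p.str, ∀ x : q.dom, (e x : X) = x
  le_refl p := ⟨@FirstOrder.Language.Embedding.refl L p.dom p.str, fun _ => rfl⟩
  le_trans := by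
    rintro p q r ⟨e, he⟩ ⟨f, hf⟩
    exact ⟨@FirstOrder.Language.Embedding.comp L r.dom q.dom r.str q.str p.dom p.str e f, fun x =>
      (he (f x)).trans (hf x)⟩

/-- The Boolean completion `RO(P)`: the Boolean algebra of regular open subsets of `P`, where the
open sets are the downward closed sets. -/
abbrev RO (P : Type u) [Preorder P] : Type u := Heyting.Regular (LowerSet P)

/-- `P` and `Q` are forcing equivalent when `RO(P)` and `RO(Q)` are isomorphic. -/
def ForcingEquivalent (P Q : Type u) [Preorder P] [Preorder Q] : Prop :=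
  Nonempty (RO P ≃o RO Q)

/-! ### The two classes -/

/-- Finite graphs; if `F` holds, finite triangle-free graphs. -/
def graphClass (F : Prop) : Set (Bundled.{u} Language.graph.Structure) :=
  {A | Finite A ∧ (∀ x y : A, Structure.RelMap adj ![x, y] → Structure.RelMap adj ![y, x]) ∧
    (∀ x : A, ¬ Structure.RelMap adj ![x, x]) ∧
    (F → ∀ x y z : A, Structure.RelMap adj ![x, y] → Structure.RelMap adj ![y, z] →
      Structure.RelMap adj ![x, z] → False)}

theorem embedding_relMap {A B : Type*} [Language.graph.Structure A] [Language.graph.Structure B]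
    (f : A ↪[Language.graph] B) (x y : A) :
    Structure.RelMap adj ![f x, f y] ↔ Structure.RelMap adj ![x, y] := by
  have := f.map_rel adj ![x, y]
  rw [← this]
  have h : f ∘ ![x, y] = ![f x, f y] := by
    ext i; fin_cases i <;> rfl
  rw [h]

theorem mem_of_embedding {F : Prop} {A B : Bundled.{u} Language.graph.Structure}
    (hA : A ∈ graphClass F) (f : B ↪[Language.graph] A) : B ∈ graphClass F := by
  obtain ⟨h1, h2, h3, h4⟩ := hA
  refine ⟨Finite.of_injective f f.injective, ?_, ?_, ?_⟩
  · intro x y h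
    rw [← embedding_relMap f] at h ⊢
    exact h2 _ _ h
  · intro x h
    rw [← embedding_relMap f] at h
    exact h3 _ h
  · intro hF x y z a b c
    rw [← embedding_relMap f] at a b c
    exact h4 hF _ _ _ a b c

/-- Build a graph structure from a binary relation. -/
@[instance_reducible]
def ofRel {V : Type u} (r : V → V → Prop) : Language.graph.Structure V where
  RelMap | .adj => fun x => r (x 0) (x 1)

theorem ofRel_relMap {V : Type u} (r : V → V → Prop) (x y : V) :
    @Structure.RelMap Language.graph V (ofRel r) 2 adj ![x, y] ↔ r x y := Iff.rfl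

/-- An injective map reflecting and preserving adjacency is an embedding. -/
def mkEmbedding {A B : Type*} [Language.graph.Structure A] [Language.graph.Structure B]
    (f : A ↪ B) (hf : ∀ x y, Structure.RelMap adj ![f x, f y] ↔ Structure.RelMap adj ![x, y]) :
    A ↪[Language.graph] B where
  toEmbedding := f
  map_fun' := fun {n} g _ => isEmptyElim g
  map_rel' := by
    intro n R v
    cases R
    have h1 : v = ![v 0, v 1] := by ext i; fin_cases i <;> rfl
    have h2 : (f ∘ v) = ![f (v 0), f (v 1)] := by ext i; fin_cases i <;> rfl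
    have := hf (v 0) (v 1)
    rw [← h1, ← h2] at this
    exact this

theorem strongAmalg (F : Prop) (A B C : Bundled.{u} Language.graph.Structure)
    (hB : B ∈ graphClass F) (hC : C ∈ graphClass F)
    (f : A ↪[Language.graph] B) (g : A ↪[Language.graph] C) :
    ∃ D ∈ graphClass.{u} F, ∃ (f' : B ↪[Language.graph] D) (g' : C ↪[Language.graph] D),
      f'.comp f = g'.comp g ∧ Set.range f' ∩ Set.range g' = Set.range (f'.comp f) := by
  classical
  obtain ⟨hBf, hBs, hBi, hBt⟩ := hB
  obtain ⟨hCf, hCs, hCi, hCt⟩ := hC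
  -- underlying set `B ⊕ {c : C // c ∉ range g}`
  let V : Type u := B ⊕ {c : C // c ∉ Set.range g}
  -- predicate: pairs of vertices lying in the copy of `B`, of `C`
  let inC : C → V := fun c => if h : c ∈ Set.range g then Sum.inl (f h.choose) else Sum.inr ⟨c, h⟩
  have inC_g : ∀ a, inC (g a) = Sum.inl (f a) := by
    intro a
    have h : g a ∈ Set.range g := ⟨a, rfl⟩
    have h2 : h.choose = a := g.injective h.choose_spec
    simp only [inC, dif_pos h]
    rw [h2]
  have inC_not : ∀ c (h : c ∉ Set.range g), inC c = Sum.inr ⟨c, h⟩ := by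
    intro c h
    simp only [inC, dif_neg h]
  have inC_inj : Function.Injective inC := by
    intro c d hcd
    by_cases hc : c ∈ Set.range g
    · obtain ⟨a, rfl⟩ := hc
      by_cases hd : d ∈ Set.range g
      · obtain ⟨b, rfl⟩ := hd
        rw [inC_g, inC_g] at hcd
        rw [f.injective (Sum.inl_injective hcd)]
      · rw [inC_g, inC_not d hd] at hcd
        exact (Sum.inl_ne_inr hcd).elim
    · by_cases hd : d ∈ Set.range g
      · obtain ⟨b, rfl⟩ := hd
        rw [inC_g, inC_not c hc] at hcd
        exact (Sum.inr_ne_inl hcd).elim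
      · rw [inC_not c hc, inC_not d hd] at hcd
        exact congrArg Subtype.val (Sum.inr_injective hcd)
  let RB : B → B → Prop := fun x y => Structure.RelMap adj ![x, y]
  let RC : C → C → Prop := fun x y => Structure.RelMap adj ![x, y]
  let r : V → V → Prop := fun v w =>
    (∃ x y : B, v = Sum.inl x ∧ w = Sum.inl y ∧ RB x y) ∨ (∃ x y : C, v = inC x ∧ w = inC y ∧ RC x y)
  have hRf : ∀ a b, RB (f a) (f b) ↔ Structure.RelMap adj ![a, b] := fun a b => embedding_relMap f a b
  have hRg : ∀ a b, RC (g a) (g b) ↔ Structure.RelMap adj ![a, b] := fun a b => embedding_relMap g a b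
  -- key: a `C`-edge between two elements of the copy of `B` is a `B`-edge and conversely
  have inC_inl : ∀ c b, inC c = Sum.inl b → ∃ a, c = g a ∧ b = f a := by
    intro c b h
    by_cases hc : c ∈ Set.range g
    · obtain ⟨a, rfl⟩ := hc
      rw [inC_g] at h
      exact ⟨a, rfl, (Sum.inl_injective h).symm⟩
    · rw [inC_not c hc] at h
      exact (Sum.inr_ne_inl h).elim
  have rB : ∀ x y : B, r (Sum.inl x) (Sum.inl y) ↔ RB x y := by
    intro x y
    constructor
    · rintro (⟨x', y', h1, h2, h3⟩ | ⟨x', y', h1, h2, h3⟩)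
      · rw [Sum.inl_injective h1, Sum.inl_injective h2]; exact h3
      · obtain ⟨a, rfl, rfl⟩ := inC_inl x' x h1.symm
        obtain ⟨b, rfl, rfl⟩ := inC_inl y' y h2.symm
        rw [hRf]
        exact (hRg a b).1 h3
    · intro h; exact Or.inl ⟨x, y, rfl, rfl, h⟩
  have rC : ∀ x y : C, r (inC x) (inC y) ↔ RC x y := by
    intro x y
    constructor
    · rintro (⟨x', y', h1, h2, h3⟩ | ⟨x', y', h1, h2, h3⟩)
      · obtain ⟨a, rfl, rfl⟩ := inC_inl x x' h1
        obtain ⟨b, rfl, rfl⟩ := inC_inl y y' h2
        rw [hRg]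
        exact (hRf a b).1 h3
      · rw [inC_inj h1, inC_inj h2]; exact h3
    · intro h; exact Or.inr ⟨x, y, rfl, rfl, h⟩
  have rsymm : ∀ v w, r v w → r w v := by
    rintro v w (⟨x, y, h1, h2, h3⟩ | ⟨x, y, h1, h2, h3⟩)
    · exact Or.inl ⟨y, x, h2, h1, hBs _ _ h3⟩
    · exact Or.inr ⟨y, x, h2, h1, hCs _ _ h3⟩
  have rirr : ∀ v, ¬ r v v := by
    rintro v (⟨x, y, h1, h2, h3⟩ | ⟨x, y, h1, h2, h3⟩)
    · have : x = y := Sum.inl_injective (h1.symm.trans h2)
      subst this
      exact hBi _ h3
    · have : x = y := inC_inj (h1.symm.trans h2)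
      subst this
      exact hCi _ h3
  have rtf : F → ∀ u v w, r u v → r v w → r u w → False := by
    intro hF
    -- triangles inside `B` or `C` are impossible
    have tB : ∀ x y z : B, RB x y → RB y z → RB x z → False := hBt hF
    have tC : ∀ x y z : C, RC x y → RC y z → RC x z → False := hCt hF
    -- an edge is inside `B` or inside `C`
    have split : ∀ v w, r v w → ((∃ x, v = Sum.inl x) ∧ ∃ y, w = Sum.inl y) ∨
        ((∃ x, v = inC x) ∧ ∃ y, w = inC y) := by
      rintro v w (⟨x, y, h1, h2, -⟩ | ⟨x, y, h1, h2, -⟩)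
      · exact Or.inl ⟨⟨x, h1⟩, ⟨y, h2⟩⟩
      · exact Or.inr ⟨⟨x, h1⟩, ⟨y, h2⟩⟩
    have allB : ∀ u v w : V, r u v → r v w → r u w → (∃ x, u = Sum.inl x) → (∃ x, v = Sum.inl x) →
        (∃ x, w = Sum.inl x) → False := by
      rintro _ _ _ h1 h2 h3 ⟨x, rfl⟩ ⟨y, rfl⟩ ⟨z, rfl⟩
      exact tB x y z ((rB _ _).1 h1) ((rB _ _).1 h2) ((rB _ _).1 h3)
    have allC : ∀ u v w : V, r u v → r v w → r u w → (∃ x, u = inC x) → (∃ x, v = inC x) →
        (∃ x, w = inC x) → False := by
      rintro _ _ _ h1 h2 h3 ⟨x, rfl⟩ ⟨y, rfl⟩ ⟨z, rfl⟩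
      exact tC x y z ((rC _ _).1 h1) ((rC _ _).1 h2) ((rC _ _).1 h3)
    intro u v w h1 h2 h3
    rcases split u v h1 with ⟨a1, a2⟩ | ⟨a1, a2⟩ <;> rcases split v w h2 with ⟨b1, b2⟩ | ⟨b1, b2⟩ <;>
      rcases split u w h3 with ⟨c1, c2⟩ | ⟨c1, c2⟩
    · exact allB u v w h1 h2 h3 a1 a2 b2
    · exact allB u v w h1 h2 h3 a1 a2 b2
    · exact allB u v w h1 h2 h3 a1 a2 c2
    · exact allC u v w h1 h2 h3 c1 b1 b2
    · exact allB u v w h1 h2 h3 c1 b1 b2
    · exact allC u v w h1 h2 h3 a1 a2 c2
    · exact allC u v w h1 h2 h3 a1 a2 b2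
    · exact allC u v w h1 h2 h3 a1 a2 b2
  let D : Bundled.{u} Language.graph.Structure := ⟨V, ofRel r⟩
  have hD : D ∈ graphClass F := by
    refine ⟨?_, fun x y h => rsymm x y h, fun x h => rirr x h, fun hF x y z a b c =>
      rtf hF x y z a b c⟩
    change Finite (B ⊕ {c : C // c ∉ Set.range g})
    infer_instance
  let iV : Language.graph.Structure V := ofRel r
  let f' : B ↪[Language.graph] V := mkEmbedding ⟨Sum.inl, Sum.inl_injective⟩ (fun x y => rB x y)
  let g' : C ↪[Language.graph] V := mkEmbedding ⟨inC, inC_inj⟩ (fun x y => rC x y)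
  have hf' : ∀ x, f' x = Sum.inl x := fun _ => rfl
  have hg' : ∀ x, g' x = inC x := fun _ => rfl
  refine ⟨D, hD, f', g', ?_, ?_⟩
  · ext a
    change f' (f a) = g' (g a)
    rw [hf', hg', inC_g]
  · ext v
    constructor
    · rintro ⟨⟨b, hb⟩, ⟨c, hc⟩⟩
      rw [hf'] at hb
      rw [hg'] at hc
      obtain ⟨a, rfl, rfl⟩ := inC_inl c b (hc.trans hb.symm)
      exact ⟨a, hb⟩
    · rintro ⟨a, rfl⟩
      refine ⟨⟨f a, rfl⟩, ⟨g a, ?_⟩⟩
      change g' (g a) = f' (f a)
      rw [hf', hg', inC_g]

theorem isStrongFraisseClass (F : Prop) :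
    IsStrongFraisseClass (graphClass.{u} F) where
  finite := fun A hA => hA.1
  iso := fun A hA B ⟨e⟩ => mem_of_embedding hA e.symm.toEmbedding
  substructure := fun A hA S => mem_of_embedding hA S.subtype
  jointEmbedding := by
    intro A hA B hB
    let iE : Language.graph.Structure PEmpty.{u + 1} := ofRel fun _ _ => False
    have eA : PEmpty.{u + 1} ↪[Language.graph] A :=
      mkEmbedding ⟨fun x => x.elim, fun x => x.elim⟩ (fun x => x.elim)
    have eB : PEmpty.{u + 1} ↪[Language.graph] B :=
      mkEmbedding ⟨fun x => x.elim, fun x => x.elim⟩ (fun x => x.elim)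
    obtain ⟨D, hD, f', g', -, -⟩ := strongAmalg F ⟨PEmpty.{u + 1}, iE⟩ A B hA hB eA eB
    exact ⟨D, hD, ⟨f'⟩, ⟨g'⟩⟩
  strongAmalgamation := fun A _ B hB C hC f g => strongAmalg F A B C hB hC f g

theorem realize_adj (A : Bundled.{u} Language.graph.Structure) (v : Fin 2 → A) :
    (adj.formula ![Term.var 0, Term.var 1] : Language.graph.Formula (Fin 2)).Realize v ↔
      Structure.RelMap adj ![v 0, v 1] := by
  rw [Formula.realize_rel]
  have : (fun i => Term.realize v ((![Term.var 0, Term.var 1] :
      Fin 2 → Language.graph.Term (Fin 2)) i)) = ![v 0, v 1] := by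
    ext i; fin_cases i <;> rfl
  rw [this]

theorem not_trivial (F : Prop) : ¬ IsTrivialClass (graphClass.{u} F) := by
  intro h
  let ψ : Language.graph.Formula (Fin 2) := adj.formula ![Term.var 0, Term.var 1]
  have hψ : IsLiteral ψ := Or.inl (BoundedFormula.IsAtomic.rel _ _)
  -- the complete and the empty graph on two vertices
  let A : Bundled.{u} Language.graph.Structure := ⟨ULift Bool, ofRel fun x y => x ≠ y⟩
  let B : Bundled.{u} Language.graph.Structure := ⟨ULift Bool, ofRel fun _ _ => False⟩
  have hA : A ∈ graphClass.{u} F := by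
    refine ⟨inferInstanceAs (Finite (ULift Bool)), fun x y h => Ne.symm h, fun x h => h rfl, ?_⟩
    intro _ x y z h1 h2 h3
    have h1' : x ≠ y := h1
    have h2' : y ≠ z := h2
    have h3' : x ≠ z := h3
    rcases x with ⟨_ | _⟩ <;> rcases y with ⟨_ | _⟩ <;> rcases z with ⟨_ | _⟩ <;> simp_all
  have hB : B ∈ graphClass.{u} F :=
    ⟨inferInstanceAs (Finite (ULift Bool)), fun x y h => h.elim, fun x h => h, fun _ x y z h => h.elim⟩
  have hinj : Function.Injective (![⟨false⟩, ⟨true⟩] : Fin 2 → ULift.{u} Bool) := by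
    intro i j hij
    fin_cases i <;> fin_cases j <;> simp_all
  rcases h 2 ψ hψ with h1 | h1
  · exact (realize_adj B _).1 (h1 B hB ![⟨false⟩, ⟨true⟩] hinj)
  · apply h1 A hA ![⟨false⟩, ⟨true⟩] hinj
    rw [realize_adj]
    change (⟨false⟩ : ULift.{u} Bool) ≠ ⟨true⟩
    simp

/-- Enumeration of all finite structures in the language of graphs. -/
def typeEnum (k : Σ n : ℕ, (Fin n → Fin n → Bool)) : Bundled.{u} Language.graph.Structure :=
  ⟨ULift.{u} (Fin k.1), ofRel fun x y => k.2 x.down y.down = true⟩

theorem countableTypes (F : Prop) : HasCountablyManyTypes (graphClass.{u} F) := by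
  classical
  obtain ⟨e, he⟩ := exists_surjective_nat (Σ n : ℕ, (Fin n → Fin n → Bool))
  have key : ∀ A ∈ graphClass.{u} F, ∃ k, Nonempty (A ≃[Language.graph] typeEnum.{u} k) := by
    intro A hA
    have : Finite A := hA.1
    obtain ⟨n, ⟨φ⟩⟩ := Finite.exists_equiv_fin A
    refine ⟨⟨n, fun i j => decide (Structure.RelMap adj ![φ.symm i, φ.symm j])⟩, ?_⟩
    let iU : Language.graph.Structure (ULift.{u} (Fin n)) := ofRel fun x y =>
      decide (Structure.RelMap adj ![φ.symm x.down, φ.symm y.down]) = true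
    have E : A ≃[Language.graph] (ULift.{u} (Fin n)) :=
      { toEquiv := φ.trans Equiv.ulift.symm
        map_fun' := fun {n} g _ => isEmptyElim g
        map_rel' := by
          intro m R v
          cases R
          have h1 : v = ![v 0, v 1] := by ext i; fin_cases i <;> rfl
          change decide (Structure.RelMap adj ![φ.symm (φ (v 0)), φ.symm (φ (v 1))]) = true ↔
            Structure.RelMap adj v
          rw [φ.symm_apply_apply, φ.symm_apply_apply, ← h1, decide_eq_true_iff] }
    exact ⟨E⟩
  refine ⟨fun n => typeEnum (e n), fun A hA => ?_⟩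
  obtain ⟨k, hk⟩ := key A hA
  obtain ⟨n, rfl⟩ := he k
  exact ⟨n, hk⟩

/-! ### Transfer to the combinatorial poset -/

open Pool.Agent.H98.CohenGraph in
/-- The combinatorial description of `Cohen_X` of finite (triangle-free) graphs. -/
noncomputable def cohenIso (X : Type u) (F : Prop) : Cohen X (graphClass.{u} F) ≃o GC X F where
  toFun p :=
    { dom := p.dom
      adj := fun x y => ∃ (hx : x ∈ p.dom) (hy : y ∈ p.dom),
        @Structure.RelMap Language.graph p.dom p.str 2 adj ![⟨x, hx⟩, ⟨y, hy⟩]
      symm := fun x y ⟨hx, hy, h⟩ => ⟨hy, hx, p.mem.2.1 _ _ h⟩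
      irr := fun x ⟨hx, hy, h⟩ => p.mem.2.2.1 _ h
      supp := fun x y ⟨hx, hy, h⟩ => hx
      tf := fun hF x y z ⟨hx, hy, h⟩ ⟨_, hz, h'⟩ ⟨_, _, h''⟩ => p.mem.2.2.2 hF _ _ _ h h' h'' }
  invFun g :=
    { dom := g.dom
      str := ofRel fun x y => g.adj x y
      mem := ⟨inferInstanceAs (Finite g.dom), fun x y h => g.symm _ _ h, fun x h => g.irr _ h,
        fun hF x y z h1 h2 h3 => g.tf hF _ _ _ h1 h2 h3⟩ }
  left_inv := by
    rintro ⟨dom, str, mem⟩
    have : (ofRel fun x y : dom => ∃ (hx : (x : X) ∈ dom) (hy : (y : X) ∈ dom),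
        @Structure.RelMap Language.graph dom str 2 adj ![⟨x, hx⟩, ⟨y, hy⟩]) = str := by
      ext
      case funMap n f xs => exact isEmptyElim f
      case RelMap n r xs =>
        cases r
        have h1 : xs = ![xs 0, xs 1] := by ext i; fin_cases i <;> rfl
        constructor
        · rintro ⟨_, _, h⟩
          rw [h1]; exact h
        · intro h
          rw [h1] at h
          exact ⟨(xs 0).2, (xs 1).2, h⟩
    simp only [this]
  right_inv := by
    intro g
    ext1
    · rfl
    · funext x y
      refine propext ⟨fun ⟨_, _, h⟩ => h, fun h => ⟨g.supp _ _ h, g.supp' h, h⟩⟩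
  map_rel_iff' := by
    intro p q
    constructor
    · rintro ⟨h1, h2⟩
      let _ := p.str
      let _ := q.str
      refine ⟨mkEmbedding ⟨fun x => ⟨x.1, h1 x.2⟩, fun x y h => by
        have := congrArg Subtype.val h
        exact Subtype.ext this⟩ ?_, fun x => rfl⟩
      intro x y
      have := h2 x.1 x.2 y.1 y.2
      constructor
      · intro h
        obtain ⟨_, _, h'⟩ := this.1 ⟨h1 x.2, h1 y.2, h⟩
        exact h'
      · intro h
        obtain ⟨_, _, h'⟩ := this.2 ⟨x.2, y.2, h⟩
        exact h'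
    · rintro ⟨e, he⟩
      let _ := p.str
      let _ := q.str
      have hsub : ∀ x (hx : x ∈ q.dom), x ∈ p.dom := fun x hx => by
        have h1 : ((e ⟨x, hx⟩ : p.dom) : X) = x := he ⟨x, hx⟩
        exact h1 ▸ (e ⟨x, hx⟩).2
      have hee : ∀ x (hx : x ∈ q.dom), e ⟨x, hx⟩ = ⟨x, hsub x hx⟩ := fun x hx =>
        Subtype.ext (he ⟨x, hx⟩)
      refine ⟨fun x hx => hsub x hx, fun x hx y hy => ?_⟩
      have := embedding_relMap e ⟨x, hx⟩ ⟨y, hy⟩
      rw [hee, hee] at this
      constructor
      · rintro ⟨_, _, h⟩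
        exact ⟨hx, hy, this.1 h⟩
      · rintro ⟨_, _, h⟩
        exact ⟨hsub x hx, hsub y hy, this.2 h⟩

/-- Order isomorphic posets have isomorphic completions. -/
def roCongr {P Q : Type u} [Preorder P] [Preorder Q] (e : P ≃o Q) : RO P ≃o RO Q :=
  let m : LowerSet P ≃o LowerSet Q := LowerSet.map e
  { toFun := fun U => ⟨m U.val, by
      have : U.valᶜᶜ = U.val := U.prop
      change (m U.val)ᶜᶜ = m U.val
      rw [← map_compl m, ← map_compl m, this]⟩
    invFun := fun U => ⟨m.symm U.val, by
      have : U.valᶜᶜ = U.val := U.prop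
      change (m.symm U.val)ᶜᶜ = m.symm U.val
      rw [← map_compl m.symm, ← map_compl m.symm, this]⟩
    left_inv := fun U => Heyting.Regular.coe_injective (m.symm_apply_apply U.val)
    right_inv := fun U => Heyting.Regular.coe_injective (m.apply_symm_apply U.val)
    map_rel_iff' := fun {a b} => m.le_iff_le }

/-- **Negative answer.** For every set `X` of cardinality at least `aleph 2` there are two
non-trivial strong Fraisse classes `K₀`, `K₁` in the language with a single binary relation symbol,
each with at most countably many isomorphism types, such that `Cohen_X(K₀)` and `Cohen_X(K₁)` are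
not forcing equivalent. -/
theorem result (X : Type u) (hX : Cardinal.aleph 2 ≤ Cardinal.mk X) :
    ∃ K₀ K₁ : Set (Bundled.{u} Language.graph.Structure),
      IsStrongFraisseClass K₀ ∧ IsStrongFraisseClass K₁ ∧
      ¬ IsTrivialClass K₀ ∧ ¬ IsTrivialClass K₁ ∧
      HasCountablyManyTypes K₀ ∧ HasCountablyManyTypes K₁ ∧
      ¬ ForcingEquivalent (Cohen X K₀) (Cohen X K₁) := by
  refine ⟨graphClass True, graphClass False, isStrongFraisseClass _, isStrongFraisseClass _,
    not_trivial _, not_trivial _, countableTypes _, countableTypes _, ?_⟩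
  rintro ⟨e⟩
  exact Pool.Agent.H98.CohenGraph.not_iso hX
    ⟨((roCongr (cohenIso X True)).symm.trans e).trans (roCongr (cohenIso X False))⟩

end Pool.Agent.Results.MP_01c350_lc.NotForcingEquivalent
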